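import Pool.Agent.H105.AKN.Edges
import Pool.Agent.H105.AKN.Data3

/-!
# Tangent graphs of ball packings in dimension 3: `κ_3 ≤ 6.7`

The tangent graph of any `n` balls of arbitrary radii in `ℝ^3` with pairwise disjoint interiors has
at most `6.7 n` edges, so that its average degree is at most `13.4`.

The edge seen from the ball `i` to the ball `j` gets the weight `w(s)`, `s = r_j / (r_i + r_j)`,
where `w(s) + w(1 - s) ≥ 2`. The directions of the neighbours of a ball satisfy
`⟨x, y⟩ ≤ 1 - 2 s s'`. A positive semidefinite kernel of degree `8` on the sphere whose coefficients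
are polynomials in `s, s'`, together with an exact certificate by sums of squares, shows that the
weights around a ball add up to at most `13.4` (the framework is `Pool.Agent.H104.AKN`).
-/

namespace Pool.Agent.Results.MP_b2bfca_co.KappaThree

open Filter Topology Pool.Agent.H105.AKN
open Pool.Agent.H104.AKN (Packing)

lemma upper (P : Packing 3) : P.avg ≤ 67 / 5 := by
  have h := avg_le2 D3.cert D3.ok0 D3.ok1 D3.blocks_ok D3.ok2 D3.dblocks_ok (by decide) P
  have e : ((D3.cert.Kn : ℕ) : ℝ) / ((D3.cert.Kd : ℕ) : ℝ) = 67 / 5 := by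
    have h1 : D3.cert.Kn = 67 := rfl
    have h2 : D3.cert.Kd = 5 := rfl
    rw [h1, h2]; norm_num
  rw [e] at h
  exact h

/-- Every collection of `n` balls in `ℝ^3` with pairwise disjoint interiors has at most `6.7 n`
tangencies, and `κ_3 ≤ 6.7`. -/
theorem result :
    (∀ (n : ℕ) (B : Balls n 3), (B.edges : ℝ) ≤ 67 / 10 * n) ∧ kappa 3 ≤ 67 / 10 := by
  have h1 : ∀ (n : ℕ) (B : Balls n 3), (B.edges : ℝ) ≤ 67 / 10 * n := by
    intro n B
    rcases Nat.eq_zero_or_pos n with rfl | hn
    · have h := edges_le B
      have : B.edges = 0 := by simpa using h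
      rw [this]; simp
    · have h := upper (B.toPacking hn)
      rw [toPacking_avg] at h
      have hn' : (0 : ℝ) < n := by exact_mod_cast hn
      rw [div_le_iff₀ hn'] at h
      linarith
  refine ⟨h1, ?_⟩
  apply csSup_le
  · exact ⟨_, 1, by simp, rfl⟩
  · rintro _ ⟨n, hn, rfl⟩
    have hn1 : 1 ≤ n := hn
    have hn' : (0 : ℝ) < n := by exact_mod_cast hn1
    obtain ⟨B, hB⟩ := exists_E n 3 (by norm_num)
    have h := h1 n B
    simp only
    rw [div_le_iff₀ hn', ← hB]
    exact h

end Pool.Agent.Results.MP_b2bfca_co.KappaThree
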