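import Pool.Agent.H105.AKN.Edges
import Pool.Agent.H105.AKN.LeechLower
import Pool.Agent.H105.AKN.Data24

/-!
# Tangent graphs of ball packings in dimension 24: `κ_24 = 98280`

The average degree of the tangent graph of any finite collection of balls of arbitrary radii in
`ℝ^24` is at most `196560`, the kissing number of `ℝ^24`; so `κ_24 = 98280`.

Upper bound: weight the edge seen from the ball `i` to the ball `j` by `w(s)`,
`s = r_j / (r_i + r_j)`, where `w(s) + w(1 - s) ≥ 2`. The directions of the neighbours of a ball
satisfy `⟨x, y⟩ ≤ 1 - 2 s s'`, and a positive semidefinite kernel of degree `12` on the sphere with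
coefficients depending on `s, s'`, together with an exact certificate by sums of squares, shows that
the weights around a ball add up to at most `196560` (the framework is `Pool.Agent.H104.AKN`).
Lower bound: large finite pieces of the Leech lattice.
-/

namespace Pool.Agent.Results.MP_b2bfca_co.KappaTwentyFour

open Filter Topology Pool.Agent.H105.AKN
open Pool.Agent.H104.AKN (Packing IsKissing tau)

lemma upper (P : Packing 24) : P.avg ≤ 196560 := by
  have h := D24.cert.avg_le D24.ok0 D24.ok1 D24.blocks_ok D24.ok2 D24.dblocks_ok (by decide) P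
  have e : ((D24.cert.Kn : ℕ) : ℝ) / ((D24.cert.Kd : ℕ) : ℝ) = 196560 := by
    have h1 : D24.cert.Kn = 196560 := rfl
    have h2 : D24.cert.Kd = 1 := rfl
    rw [h1, h2]; norm_num
  rw [e] at h
  exact h

lemma upper' (X : Finset (EuclideanSpace ℝ (Fin 24))) (hX : IsKissing 24 X) : X.card ≤ 196560 := by
  have h := D24.cert.kissing_le D24.ok0 D24.ok1 D24.blocks_ok D24.ok2 D24.dblocks_ok (by decide) X hX
  have e : ((D24.cert.Kn : ℕ) : ℝ) / ((D24.cert.Kd : ℕ) : ℝ) = 196560 := by
    have h1 : D24.cert.Kn = 196560 := rfl
    have h2 : D24.cert.Kd = 1 := rfl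
    rw [h1, h2]; norm_num
  rw [e] at h
  exact_mod_cast h

lemma tau_eq : tau 24 = 196560 := by
  unfold tau
  apply le_antisymm
  · apply csSup_le
    · obtain ⟨X, hX, h⟩ := Leech.exists_kissing
      exact ⟨196560, X, hX, h⟩
    · rintro m ⟨X, hX, rfl⟩
      exact upper' X hX
  · apply le_csSup
    · refine ⟨196560, ?_⟩
      rintro m ⟨X, hX, rfl⟩
      exact upper' X hX
    · obtain ⟨X, hX, h⟩ := Leech.exists_kissing
      exact ⟨X, hX, h⟩

/-- In dimension 24 the tangent graph of every collection of `n` balls with pairwise disjoint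
interiors has at most `98280 n` edges, `E(n, 24) / n` tends to `98280`, and `κ_24 = 98280` is half
of the kissing number of `ℝ^24`. -/
theorem result :
    (∀ (n : ℕ) (B : Balls n 24), (B.edges : ℝ) ≤ 98280 * n) ∧
      Tendsto (fun n : ℕ => (E n 24 : ℝ) / n) atTop (𝓝 98280) ∧
      kappa 24 = 98280 ∧ tau 24 = 196560 := by
  have h := kappa_of_bounds 24 (by norm_num) 98280
    (fun P => (upper P).trans (by norm_num))
    (fun L hL => (by norm_num : (2 : ℝ) * 98280 = 196560) ▸ Leech.le_of_forall_lower L hL)
  refine ⟨fun n B => ?_, h.2.1, h.2.2, tau_eq⟩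
  refine le_trans ?_ (h.1 n)
  exact_mod_cast le_E B

end Pool.Agent.Results.MP_b2bfca_co.KappaTwentyFour
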